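import Pool.Agent.H.MP_f96441_co.A

namespace Pool.Agent.Results.MP_bec8f7_co.Five

open Set Metric Pool.Agent.H.MP_f96441_co

theorem result (d : ℕ) (hd : 5 ≤ d) : ∃ C : Set (EuclideanSpace ℝ (Fin d)),
    IsCompact C ∧ Convex ℝ C ∧ (interior C).Nonempty ∧
    ¬∃ (a : EuclideanSpace ℝ (Fin d)) (v : Fin d → EuclideanSpace ℝ (Fin d)),
      LinearIndependent ℝ v ∧ ∀ S : Finset (Fin d), a + ∑ i ∈ S, v i ∈ frontier C := by
  let g : ConvexBody (EuclideanSpace ℝ (Fin d)) → TopologicalSpace.NonemptyCompacts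
    (EuclideanSpace ℝ (Fin d)) := fun K => ⟨⟨K, K.isCompact⟩, K.nonempty⟩
  have iso : Isometry g := Isometry.of_dist_eq fun _ _ => rfl
  have : CompleteSpace (ConvexBody (EuclideanSpace ℝ (Fin d))) := by
    refine IsUniformInducing.completeSpace iso.isUniformInducing (IsClosed.isComplete
      (isClosed_of_closure_subset fun S hS => ⟨⟨S, fun x hx y hy a b ha hb e => ?_,
        S.isCompact, S.nonempty⟩, rfl⟩))
    refine S.isCompact.isClosed.closure_subset (Metric.mem_closure_iff.2 fun ε ε0 => ?_)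
    obtain ⟨_, ⟨K, rfl⟩, h⟩ := Metric.mem_closure_iff.1 hS _ (half_pos ε0)
    have fin := hausdorffEDist_ne_top_of_nonempty_of_bounded S.nonempty K.nonempty
      S.isCompact.isBounded K.isBounded
    obtain ⟨x', hx', d1⟩ := exists_dist_lt_of_hausdorffDist_lt hx h fin
    obtain ⟨y', hy', d2⟩ := exists_dist_lt_of_hausdorffDist_lt hy h fin
    obtain ⟨z, hz, d3⟩ := exists_dist_lt_of_hausdorffDist_lt' (K.convex hx' hy' ha hb e) h fin
    refine ⟨z, hz, ?_⟩
    have d4 : a • (x - x') + b • (y - y') ∈ ball 0 (ε / 2) := convex_ball _ _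
      (by simpa [dist_eq_norm] using d1) (by simpa [dist_eq_norm] using d2) ha hb e
    rw [mem_ball_zero_iff, show a • (x - x') + b • (y - y') =
      a • x + b • y - (a • x' + b • y') by module, ← dist_eq_norm] at d4
    linarith [dist_triangle_right (a • x + b • y) z (a • x' + b • y')]
  let B : ConvexBody (EuclideanSpace ℝ (Fin d)) := ⟨closedBall 0 1, convex_closedBall _ _,
    isCompact_closedBall _ _, nonempty_closedBall.2 zero_le_one⟩
  obtain ⟨K, h1, h2⟩ := (dense_of_mem_residual (main hd)).inter_open_nonempty _ isOpen_ball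
    (nonempty_ball.2 one_half_pos : (ball B (1 / 2)).Nonempty)
  refine ⟨K, K.isCompact, K.convex, ⟨0, interior_maximal (t := ball 0 (1 / 2)) (fun q hq => ?_)
    isOpen_ball (mem_ball_self one_half_pos)⟩, h2⟩
  by_contra k
  obtain ⟨w, w1, hw⟩ := minor K q
  have w1 := w1 k
  have a1 := hw (q + (1 / 2 : ℝ) • w)
  rw [add_sub_cancel_left, real_inner_smul_right, real_inner_self_eq_norm_sq, w1] at a1
  have m : q + (1 / 2 : ℝ) • w ∈ (B : Set (EuclideanSpace ℝ (Fin d))) := by
    refine mem_closedBall_zero_iff.2 ((norm_add_le _ _).trans ?_)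
    rw [norm_smul, w1]
    have := mem_ball_zero_iff.1 hq
    norm_num at this ⊢
    linarith
  have a2 := infDist_le_hausdorffDist_of_mem m (ConvexBody.hausdorffEDist_ne_top (L := K))
  rw [ConvexBody.hausdorffDist_coe, dist_comm] at a2
  linarith [infDist_nonneg (x := q) (s := (K : Set (EuclideanSpace ℝ (Fin d)))), mem_ball.1 h1]

end Pool.Agent.Results.MP_bec8f7_co.Five
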